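import Pool.Agent.CTC.Fin3
import Pool.Agent.CTG.FinQ

/-!
# The coset version of Thompson's conjecture for `PSL_n(F)`, `n ≥ 3`, all types of automorphisms

`F` is a finite field, `n ≥ 3`, `G = PSL_n(F)`, `σ ∈ Aut(F)`, `A ∈ GL_n(F)`, and `α` is an
automorphism of `G` of one of the forms (every automorphism of `G` is of one of them)

* `X ↦ A σ(X) A⁻¹` (so `α ∈ PΓL_n(F)`), where `n` is odd, or the fixed field of `σ` has at least `4`
  elements, or `σ² ≠ 1`, or `α²` is not inner, or `|F| = 3` and `α` is not inner;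
* `X ↦ A σ(X⁻¹)ᵀ A⁻¹` (graph automorphisms), where either `n` is odd and the fixed field of `σ` has
  at least `4` elements (at least `7` if `n = 5`), or the fixed field of `σ` has at least `7` elements
  (at least `8` if `n = 4`), and `σ² ≠ 1`, or `σ = 1`, or `α²` is not inner, or `det A` is a square
  in `F`.

Then there is `x ∈ α G` such that the class `x^G = {g⁻¹ x g : g ∈ G}` satisfies
`(x^G)² = α² G`.

All groups are inside `Aut(G) = MulAut G`, and `G` is identified with the inner automorphisms through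
`MulAut.conj : G →* MulAut G`.  `Matrix.ProjectiveSpecialLinearGroup (Fin n) F` is Mathlib's
`PSL_n(F)`, the quotient of `SL_n(F)` by its center.

The proof.  `PΓL_n(F)`: factorization of a `σ²`-semilinear map into two `σ`-semilinear maps of type
(cyclic of dimension `n - 1`) + (one dimensional) (`Pool/Agent/CTC`).  Graph automorphisms
(`Pool/Agent/CTG`): `x` is `g ↦ S σ(g)^{-T} S⁻¹`, its class consists of the forms `a S σ(a)^T`, and
`S = [[0, Θ], [1, 0]] ⊕ ν` (`ν` only for `n` odd).  One has to write `B ∈ α² G` as `P σ(Q)^{-T}` with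
`P`, `Q` in the class of `S`; a twisted Gauss decomposition `B ~ L H U` reduces this to a factorization
of a `σ²`-semilinear map of dimension `⌊n/2⌋` into the classes of `Θ* ` (the dual) and `Θ`.
-/

set_option autoImplicit false

namespace Pool.Agent.Results.MP_8640de_al.AutPSL

open Matrix
open scoped Pointwise

theorem result {F : Type*} [Field F] [Finite F] {n : ℕ} (hn : 3 ≤ n)
    (σ : F ≃+* F) (A : Matrix (Fin n) (Fin n) F) (hA : A.det ≠ 0)
    (α : MulAut (ProjectiveSpecialLinearGroup (Fin n) F))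
    (h : ((∀ g g' : SpecialLinearGroup (Fin n) F,
        (g' : Matrix (Fin n) (Fin n) F) = A * (g : Matrix (Fin n) (Fin n) F).map σ * A⁻¹ →
          α (QuotientGroup.mk g) = QuotientGroup.mk g') ∧
        (Odd n ∨ 4 ≤ Nat.card {z : F // σ z = z} ∨ (∃ z, σ (σ z) ≠ z) ∨
          (¬ ∃ g : ProjectiveSpecialLinearGroup (Fin n) F, α ^ 2 = MulAut.conj g) ∨
          (Nat.card F = 3 ∧ ¬ ∃ g : ProjectiveSpecialLinearGroup (Fin n) F, α = MulAut.conj g))) ∨
      ((∀ g g' : SpecialLinearGroup (Fin n) F,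
        (g' : Matrix (Fin n) (Fin n) F) = A *
          (((g⁻¹ : SpecialLinearGroup (Fin n) F) : Matrix (Fin n) (Fin n) F).map σ)ᵀ * A⁻¹ →
          α (QuotientGroup.mk g) = QuotientGroup.mk g') ∧
        ((Odd n ∧ (7 ≤ Nat.card {z : F // σ z = z} ∨
            n ≠ 5 ∧ 4 ≤ Nat.card {z : F // σ z = z})) ∨
          ((8 ≤ Nat.card {z : F // σ z = z} ∨ n ≠ 4 ∧ 7 ≤ Nat.card {z : F // σ z = z}) ∧
            ((∃ z, σ (σ z) ≠ z) ∨ (∀ z, σ z = z) ∨
              (¬ ∃ g : ProjectiveSpecialLinearGroup (Fin n) F, α ^ 2 = MulAut.conj g) ∨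
              IsSquare A.det))))) :
    ∃ x : MulAut (ProjectiveSpecialLinearGroup (Fin n) F),
      (∃ g : ProjectiveSpecialLinearGroup (Fin n) F, x = α * MulAut.conj g) ∧
      {y | ∃ g : ProjectiveSpecialLinearGroup (Fin n) F,
          y = (MulAut.conj g)⁻¹ * x * MulAut.conj g} *
        {y | ∃ g : ProjectiveSpecialLinearGroup (Fin n) F,
          y = (MulAut.conj g)⁻¹ * x * MulAut.conj g} =
        {y | ∃ g : ProjectiveSpecialLinearGroup (Fin n) F, y = α ^ 2 * MulAut.conj g} := by
  rcases h with ⟨hα, h⟩ | ⟨hα, hc⟩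
  · have hind : CosetT.Ind α A σ := by
      intro g g' hg
      apply hα g g'
      rw [← hg, Matrix.mul_nonsing_inv_cancel_right _ _ (isUnit_iff_ne_zero.2 hA)]
    obtain ⟨x, hx, hxx⟩ := CTC.main3 σ hn A hA α hind (by
      rcases h with h | h | h | h | ⟨h3, h⟩
      · exact Or.inl h
      · exact Or.inr (Or.inl h)
      · exact Or.inr (Or.inr (Or.inl h))
      · refine Or.inr (Or.inr (Or.inr (Or.inl ?_)))
        rintro ⟨g, hg⟩
        exact h ⟨g, hg.symm⟩
      · refine Or.inr (Or.inr (Or.inr (Or.inr ⟨h3, ?_⟩)))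
        rintro ⟨g, hg⟩
        exact h ⟨g, hg.symm⟩)
    exact ⟨x, hx, hxx⟩
  · have hind : CTG.IndG α A σ := by
      intro g g' hg
      apply hα g g'
      rw [← hg, Matrix.mul_nonsing_inv_cancel_right _ _ (isUnit_iff_ne_zero.2 hA)]
    obtain ⟨x, hx, hxx⟩ := CTG.mainW σ hn A hA α hind hc
    exact ⟨x, hx, hxx⟩

end Pool.Agent.Results.MP_8640de_al.AutPSL
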