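import Pool.Agent.Helper47.Cos2.Main2

/-!
# The coset version of Thompson's conjecture for simple groups of Lie type, all standard `α`

`P` is a reduced crystallographic root system with a base `b`, and `G` is a simple group with root
subgroups of type `P` over finite fields `K r` (`r` a root) containing a common field `F`
(`ChevT.RootData`): homomorphisms `φ r : SL_2(K r) → G` satisfying the usual relations.
All untwisted simple Chevalley groups over `F` carry such data with `K r = F`, and the simple groups
`²A_{2n-1}(q)`, `²D_n(q)`, `³D_4(q)`, `²E_6(q)` carry such data for their relative root systems, with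
`F = F_q` and `K r` equal to `F_q` or to the field of degree `2` (`3` for `³D_4`) over `F_q`.

`α` is a standard automorphism of `G` (`ChevT.IsStandard`) with graph part `π` (a symmetry of the
Dynkin diagram) and field part `σ ∈ Aut(F)`: products of inner, diagonal, graph and field
automorphisms are of this form up to inner automorphisms.  Here `π` and `σ` are arbitrary, in
particular `σ² = 1` and `σ = 1` are allowed.

If the fixed field of `σ` is not too small, then there is `x ∈ α G` such that the class
`x^G = {g⁻¹ x g : g ∈ G}` satisfies `(x^G)² ⊇ α² G ∖ {1}`, and `(x^G)² = α² G` if `α²` is not inner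
or if there is `n ∈ G` which conjugates `α` to `α⁻¹` and which inverts the torus of `G` up to a
symmetry `ω` of the Dynkin diagram (a representative of the longest element `w_0` of the Weyl group
has the latter property for `ω = -w_0`, and it is fixed by the standard field and graph
automorphisms).

All groups are inside `Aut(G) = MulAut G`, and `g ∈ G` acts as `MulAut.conj g`.
-/

namespace Pool.Agent.Results.MP_8640de_al.LieTypeCosets

open scoped Pointwise

theorem result {ι M N F G : Type*} [Fintype ι] [AddCommGroup M] [Module ℚ M] [AddCommGroup N]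
    [Module ℚ N] (P : RootPairing ι ℚ M N) [P.IsRootSystem] [P.IsCrystallographic] [P.IsReduced]
    (b : P.Base) [Field F] [Finite F] {K : ι → Type*} [∀ r, Field (K r)] [∀ r, Finite (K r)]
    [∀ r, Algebra F (K r)] [Group G] [IsSimpleGroup G] (D : ChevT.RootData P b F K G)
    (π : Equiv.Perm ι) (σ : F ≃+* F) (α : MulAut G) (hα : ChevT.IsStandard D π σ α)
    (ω : Equiv.Perm b.support)
    (hω : ∀ i j : b.support, P.pairingIn ℤ (ω i) (ω j) = P.pairingIn ℤ i j)
    (hq : ∀ j ∈ b.support, orderOf ω * (orderOf π * ∑ r, Module.finrank F (K r) *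
      |P.pairingIn ℤ r j|) < 2 * ((Nat.card {z : F // σ z = z} : ℤ) - 1))
    (hσ : σ = 1 → ∀ j ∈ b.support, ∑ k ∈ b.support, |P.pairingIn ℤ k j| + 3 < Nat.card F) :
    ∃ x : MulAut G, (∃ g : G, x = α * MulAut.conj g) ∧
      {y | (∃ g : G, y = α ^ 2 * MulAut.conj g) ∧ y ≠ 1} ⊆
        {y | ∃ g : G, y = (MulAut.conj g)⁻¹ * x * MulAut.conj g} *
          {y | ∃ g : G, y = (MulAut.conj g)⁻¹ * x * MulAut.conj g} ∧
      (((∀ g : G, α ^ 2 ≠ MulAut.conj g) ∨
        ∃ n : G, MulAut.conj n * α * (MulAut.conj n)⁻¹ = α⁻¹ ∧ ∀ (j : b.support) (a : Fˣ),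
          n * D.φ j (ChevT.dg (Units.map (algebraMap F (K j) : F →* K j) a)) * n⁻¹ =
            (D.φ (ω j) (ChevT.dg (Units.map (algebraMap F (K (ω j)) : F →* K (ω j)) a)))⁻¹) →
        {y | ∃ g : G, y = (MulAut.conj g)⁻¹ * x * MulAut.conj g} *
          {y | ∃ g : G, y = (MulAut.conj g)⁻¹ * x * MulAut.conj g} =
          {y | ∃ g : G, y = α ^ 2 * MulAut.conj g}) := by
  obtain ⟨⟨θ, hπ⟩, hs, hact⟩ := hα
  choose c τ hτ hα using hact
  obtain ⟨x, hx, h1, h2⟩ := D.main2 α π θ σ τ c hα hτ hπ hs ω hω hq hσ
  refine ⟨x, hx, fun y hy => h1 y hy.1 hy.2, fun h => ?_⟩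
  apply Set.Subset.antisymm (CosetT.cls_mul_subset hx)
  intro y hy
  by_cases hy1 : y = 1
  · rcases h with h | ⟨n, hn1, hn2⟩
    · exfalso
      obtain ⟨g, hg⟩ := hy
      apply h g⁻¹
      rw [map_inv]
      exact eq_inv_of_mul_eq_one_left (hg.symm.trans hy1)
    · rw [hy1]
      exact h2 n hn1 hn2
  · exact h1 y hy hy1

end Pool.Agent.Results.MP_8640de_al.LieTypeCosets
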