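import Pool.Agent.Helper47.PTwo.Main
import Pool.Agent.Helper47.PTwo.Aut

/-!
# The coset version of Thompson's conjecture for `PSL_2(q)`, every automorphism

`F` is a finite field with at least four elements and `G = PSL_2(F)`.  For every automorphism `α`
of `G` there is `x ∈ α G` such that the class `x^G = {g⁻¹ x g : g ∈ G}` satisfies
`(x^G)² = α² G`.

All groups are inside `Aut(G) = MulAut G`, and `G` is identified with the inner automorphisms through
`MulAut.conj : G →* MulAut G`.  `Matrix.ProjectiveSpecialLinearGroup (Fin 2) F` is Mathlib's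
`PSL_2(F)`, the quotient of `SL_2(F)` by its center.
-/

namespace Pool.Agent.Results.MP_8640de_al.PSLTwoComplete

open Matrix
open scoped Pointwise

theorem result {F : Type*} [Field F] [Finite F] (hF : 4 ≤ Nat.card F)
    (α : MulAut (ProjectiveSpecialLinearGroup (Fin 2) F)) :
    ∃ x : MulAut (ProjectiveSpecialLinearGroup (Fin 2) F),
      (∃ g : ProjectiveSpecialLinearGroup (Fin 2) F, x = α * MulAut.conj g) ∧
      {y | ∃ g : ProjectiveSpecialLinearGroup (Fin 2) F,
          y = (MulAut.conj g)⁻¹ * x * MulAut.conj g} *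
        {y | ∃ g : ProjectiveSpecialLinearGroup (Fin 2) F,
          y = (MulAut.conj g)⁻¹ * x * MulAut.conj g} =
        {y | ∃ g : ProjectiveSpecialLinearGroup (Fin 2) F, y = α ^ 2 * MulAut.conj g} := by
  obtain ⟨A, σ, hA, hind⟩ := Pool.Agent.Helper47.PTwo.every_aut α
  obtain ⟨x, hx, h⟩ := Pool.Agent.Helper47.PTwo.psl_two hF σ A hA α hind
  exact ⟨x, hx, h⟩

end Pool.Agent.Results.MP_8640de_al.PSLTwoComplete
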