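import Pool.Agent.SZT.Fin

/-!
# The coset version of Thompson's conjecture for the Suzuki groups, every automorphism

`F` is a field with `q = 2 ^ (2 n + 1)` elements, `n ≥ 1`, and `G = Sz(q)` is the subgroup of `GL_4(F)`
generated by Suzuki's matrices (`Pool.Agent.Helper8.SUZ.Sz`, with `th x = x ^ (2 ^ (n + 1))`).  For
every automorphism `α` of `G` there is `x ∈ α G` such that the class `x^G = {g⁻¹ x g : g ∈ G}`
satisfies `(x^G)² = α² G`.

All groups are inside `Aut(G) = MulAut G`, and `G` is identified with the inner automorphisms through
`MulAut.conj : G →* MulAut G`.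

The proof.  (0) Every automorphism of `G` is the product of an inner automorphism and the entrywise
action `φ` of an automorphism `σ` of `F` (`SZA`: Sylow's theorem for the root group `U`, Lang's
argument for the torus `T`, and Suzuki's normal form), so `x = t φ` with `t ∈ G` may be considered.
(1) The fixed field of `σ` is not `F_2` (`SZQ/CstA`, `CstF`).  Let `w ∈ G` be the antidiagonal matrix,
which inverts `T` and is fixed by `φ`.  An element `g φ²` which does not act trivially is `G`-conjugate
to `v v' φ²` with `v ∈ U`, `v' ∈ w U w`: the points `b` with `g ∈ U_b U_a` are counted (`Brg`).  There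
is `t ∈ T` such that `t φ` has no nontrivial fixed point on `U`, because the elements `σ(a) / a` form a
proper subgroup of `F^*` (`FldC`).  By Lang's theorem on `U` and on `w U w`,
`v v' φ² = (v φ t) (t⁻¹ φ v'')` is a product of two `G`-conjugates of `t φ`.
(2) The fixed field of `σ` is `F_2` (`SZT`, helper44).  Let `x = S(1,0) φ`; at most `4` elements of `G`
commute with `x` (`CX`), and if `z ∈ G φ²` has a fixed point or `q = 8`, then at most `20` elements of
`G` commute with `z`, otherwise at most `q² + 1` (`CZ1`, `CZ2`).  A nonzero space of functions on `G`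
with sum `0` which is invariant under left and right translations has dimension at least
`(q - 1)² q / 2` (`Dim`).  This bounds the norm of the operator with kernel `[h' φ(h)⁻¹ ∈ X]` on the
functions with sum `0`, where `X φ` is the class of `x` (`Gap`), and if `z` were not a product of
two elements of this class, `(q - 1)² q / 2 ≤ 9 |C_G(z)|` would follow (`Spec`).
-/

set_option autoImplicit false

namespace Pool.Agent.Results.MP_8640de_al.SuzukiCosets

open Pool.Agent.Helper8.SUZ
open scoped Pointwise

/-- Let `G = Sz(q)`, `q = 2 ^ (2 n + 1) ≥ 8`.  For every automorphism `α` of `G` there is `x ∈ α G`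
with `(x^G)² = α² G`. -/
theorem result {F : Type} [Field F] [Finite F] {n : ℕ} (hn : 1 ≤ n)
    (hF : Nat.card F = 2 ^ (2 * n + 1)) {G : Subgroup (GL (Fin 4) F)}
    (hG : G = Sz fun x : F => x ^ (2 ^ (n + 1))) (α : MulAut G) :
    ∃ x : MulAut G, (∃ g : G, x = α * MulAut.conj g) ∧
      {y | ∃ g : G, y = (MulAut.conj g)⁻¹ * x * MulAut.conj g} *
        {y | ∃ g : G, y = (MulAut.conj g)⁻¹ * x * MulAut.conj g} =
        {y | ∃ g : G, y = α ^ 2 * MulAut.conj g} := by
  subst hG
  exact Pool.Agent.SZT.sz_every hn hF α

end Pool.Agent.Results.MP_8640de_al.SuzukiCosets
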